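import Pool.Agent.Lib.MP_d439b2_co.J.Cells

/-!
# MP_d439b2_co, depth of models of complete graphs
-/

set_option autoImplicit false

namespace Pool.Agent.MPd439b2

variable {V : Type} {G : SimpleGraph V}

/-- one of `n` disjoint sets avoids a set with fewer than `n` elements -/
theorem exists_disjoint_of_ncard_lt [Finite V] (F : ℕ → Set V) (n : ℕ)
    (hd : ∀ i < n, ∀ j < n, i ≠ j → Disjoint (F i) (F j)) {X : Set V} (hX : X.ncard < n) :
    ∃ i < n, Disjoint (F i) X := by
  by_contra hcon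
  push Not at hcon
  have h1 : ∀ i : Fin n, ∃ x, x ∈ F i.val ∧ x ∈ X := fun i => by
    have := hcon i.val i.2
    rw [Set.not_disjoint_iff] at this
    exact this
  choose x hx hxX using h1
  have hinj : Function.Injective x := by
    intro i j hij
    by_contra hne
    have h2 := hd i.val i.2 j.val j.2 (fun h => hne (Fin.ext h))
    exact Set.disjoint_left.mp h2 (hx i) (by rw [hij]; exact hx j)
  have h3 : (Set.range x).ncard = n := by
    rw [← Set.image_univ, Set.ncard_image_of_injective _ hinj, Set.ncard_univ]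
    simp
  have h4 : (Set.range x).ncard ≤ X.ncard :=
    Set.ncard_le_ncard (by rintro _ ⟨i, rfl⟩; exact hxX i) (Set.toFinite _)
  omega

theorem GrModel.conn_rowS {r : ℕ} {g : ℕ → ℕ → Set V} (h : GrModel G r g) {i : ℕ} (hi : i < r) :
    Conn G (rowS g r i) :=
  conn_chain (g i) r (by omega) (fun k hk => h.conn i hi k hk) (fun k hk => h.hor i hi k hk)

theorem GrModel.conn_colS {r : ℕ} {g : ℕ → ℕ → Set V} (h : GrModel G r g) {j : ℕ} (hj : j < r) :
    Conn G {v | ∃ i < r, v ∈ g i j} :=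
  conn_chain (fun i => g i j) r (by omega) (fun k hk => h.conn k hk j hj)
    (fun k hk => h.ver k hk j hj)

/-- the model of a complete graph made of cells is deep if every branch set contains many cells of one
row -/
theorem deep_cells [Finite V] {S : Set V} {r t m k : ℕ} {g : ℕ → ℕ → Set V}
    (h : GrModel G r g) (hside : DeepRows G S r k g)
    (hkt : k ≤ t) (hkm : k ≤ m) {B : ℕ → Set (ℕ × ℕ)}
    (hB : ∀ i < t, ∀ x ∈ B i, x.1 < r ∧ x.2 < r) (hBc : ∀ i < t, Conn (cellG G r g) (B i))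
    (hBd : ∀ i < t, ∀ j < t, i ≠ j → Disjoint (B i) (B j)) (p c : ℕ → ℕ)
    (hp : ∀ i < t, ∀ j, c i < j → j ≤ c i + m → (p i, j) ∈ B i) :
    Deep G S k (fun i : Fin t => cellU g (B i.val)) := by
  intro X hX
  obtain ⟨i, hi, hd⟩ := exists_disjoint_of_ncard_lt (fun i => cellU g (B i)) t
    (fun i hi j hj hij => h.disj_cellU (hB i hi) (hB j hj) (hBd i hi j hj hij)) (X := X) (by omega)
  have hconn := h.conn_cellU (hBc i hi) (hB i hi)
  -- a column
  have hcol : ∀ j < m, c i + 1 + j < r ∧ p i < r := fun j hj => by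
    have := hB i hi _ (hp i hi (c i + 1 + j) (by omega) (by omega))
    exact ⟨this.2, this.1⟩
  obtain ⟨j, hj, hdj⟩ := exists_disjoint_of_ncard_lt
    (fun j => {v | ∃ a < r, v ∈ g a (c i + 1 + j)}) m (by
      intro j hj j' hj' hne
      rw [Set.disjoint_left]
      rintro u ⟨a, ha, hu⟩ ⟨a', ha', hu'⟩
      exact Set.disjoint_left.mp (h.disj a ha _ (hcol j hj).1 a' ha' _ (hcol j' hj').1
        (Or.inr (by omega))) hu hu') (X := X) (by omega)
  have hcolc := h.conn_colS (hcol j hj).1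
  have h1 : Conn G (cellU g (B i) ∪ {v | ∃ a < r, v ∈ g a (c i + 1 + j)}) := by
    refine hconn.union hcolc (Or.inl ?_)
    obtain ⟨u, hu⟩ := (h.conn (p i) (hcol j hj).2 _ (hcol j hj).1).1
    exact ⟨u, ⟨(p i, c i + 1 + j), hp i hi _ (by omega) (by omega), hu⟩, p i, (hcol j hj).2, hu⟩
  -- a row
  obtain ⟨a, ha, D, hDX, hDc, hDr, hDb⟩ := hside X hX
  have h2 : Conn G ((cellU g (B i) ∪ {v | ∃ a < r, v ∈ g a (c i + 1 + j)}) ∪ D) := by
    refine h1.union hDc (Or.inl ?_)
    obtain ⟨u, hu⟩ := (h.conn a ha _ (hcol j hj).1).1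
    exact ⟨u, Or.inr ⟨a, ha, hu⟩, hDr ⟨_, (hcol j hj).1, hu⟩⟩
  refine ⟨⟨i, hi⟩, _, ?_, h2, fun v hv => Or.inl (Or.inl hv), ?_⟩
  · exact (hd.union_left hdj).union_left hDX
  · have h3 : (S ∩ D).ncard ≤
        (S ∩ ((cellU g (B i) ∪ {v | ∃ a < r, v ∈ g a (c i + 1 + j)}) ∪ D)).ncard :=
      Set.ncard_le_ncard (fun v hv => ⟨hv.1, Or.inr hv.2⟩) (Set.toFinite _)
    omega

end Pool.Agent.MPd439b2
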