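import Pool.Agent.Lib.MP_d439b2_co.J.Cross

/-!
# MP_d439b2_co, jump lemma: a model of a complete graph in a grid all of whose windows above the
diagonal are unclean
-/

set_option autoImplicit false

namespace Pool.Agent.MPd439b2

/-- the pieces of a web -/
structure Web {α : Type} (K : SimpleGraph α) (t : ℕ) (blk : α → ℕ × ℕ)
    (Vp Hp : ℕ → ℕ → Set α) (Dp : ℕ → Set α) : Prop where
  bV : ∀ a b, a < b → b < t → ∀ x ∈ Vp a b, blk x = (a, b)
  bH : ∀ a b, a < b → b < t → ∀ x ∈ Hp a b, blk x = (a, b)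
  bD : ∀ a < t, ∀ x ∈ Dp a, blk x = (a, a)
  cV : ∀ a b, a < b → b < t → Conn K (Vp a b)
  cH : ∀ a b, a < b → b < t → Conn K (Hp a b)
  cD : ∀ a < t, Conn K (Dp a)
  dis : ∀ a b, a < b → b < t → Disjoint (Hp a b) (Vp a b)
  tHV : ∀ a b, a < b → b < t → Tch K (Hp a b) (Vp a b)
  tVV : ∀ a b, a + 1 < b → b < t → Tch K (Vp a b) (Vp (a + 1) b)
  tVD : ∀ a, a + 1 < t → Tch K (Vp a (a + 1)) (Dp (a + 1))
  tDH : ∀ a, a + 1 < t → Tch K (Dp a) (Hp a (a + 1))
  tHH : ∀ a b, a < b → b + 1 < t → Tch K (Hp a b) (Hp a (b + 1))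

/-- the `k`-th piece of the branch set `i` -/
def webP {α : Type} (Vp Hp : ℕ → ℕ → Set α) (Dp : ℕ → Set α) (i k : ℕ) : Set α :=
  if k < i then Vp k i else if k = i then Dp i else Hp i k

theorem webP_lt {α : Type} {Vp Hp : ℕ → ℕ → Set α} {Dp : ℕ → Set α} {i k : ℕ} (h : k < i) :
    webP Vp Hp Dp i k = Vp k i := by
  unfold webP
  rw [if_pos h]

theorem webP_eq {α : Type} {Vp Hp : ℕ → ℕ → Set α} {Dp : ℕ → Set α} {i : ℕ} :
    webP Vp Hp Dp i i = Dp i := by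
  unfold webP
  rw [if_neg (lt_irrefl i), if_pos rfl]

theorem webP_gt {α : Type} {Vp Hp : ℕ → ℕ → Set α} {Dp : ℕ → Set α} {i k : ℕ} (h : i < k) :
    webP Vp Hp Dp i k = Hp i k := by
  unfold webP
  rw [if_neg (by omega), if_neg (by omega)]

/-- the branch set `i` of a web -/
def webB {α : Type} (Vp Hp : ℕ → ℕ → Set α) (Dp : ℕ → Set α) (t i : ℕ) : Set α :=
  {x | ∃ k < t, x ∈ webP Vp Hp Dp i k}

section

variable {α : Type} {K : SimpleGraph α} {t : ℕ} {blk : α → ℕ × ℕ} {Vp Hp : ℕ → ℕ → Set α}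
  {Dp : ℕ → Set α}

theorem Web.conn (h : Web K t blk Vp Hp Dp) {i : ℕ} (hi : i < t) :
    Conn K (webB Vp Hp Dp t i) := by
  refine conn_chain _ t (by omega) (fun k hk => ?_) (fun k hk => ?_)
  · rcases lt_trichotomy k i with h1 | h1 | h1
    · rw [webP_lt h1]
      exact h.cV k i h1 hi
    · subst h1
      rw [webP_eq]
      exact h.cD k hi
    · rw [webP_gt h1]
      exact h.cH i k h1 hk
  · rcases lt_trichotomy k i with h1 | h1 | h1
    · rw [webP_lt h1]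
      by_cases h2 : k + 1 = i
      · subst h2
        rw [webP_eq]
        exact h.tVD k hk
      · rw [webP_lt (by omega)]
        exact h.tVV k i (by omega) hi
    · subst h1
      rw [webP_eq, webP_gt (by omega)]
      exact h.tDH k hk
    · rw [webP_gt h1, webP_gt (by omega)]
      exact h.tHH i k h1 hk

theorem Web.blk_eq (h : Web K t blk Vp Hp Dp) {i k : ℕ} (hi : i < t) (hk : k < t) {x : α}
    (hx : x ∈ webP Vp Hp Dp i k) : (k ≤ i ∧ blk x = (k, i)) ∨ (i ≤ k ∧ blk x = (i, k)) := by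
  rcases lt_trichotomy k i with h1 | h1 | h1
  · rw [webP_lt h1] at hx
    exact Or.inl ⟨h1.le, h.bV k i h1 hi x hx⟩
  · subst h1
    rw [webP_eq] at hx
    exact Or.inl ⟨le_refl _, h.bD k hi x hx⟩
  · rw [webP_gt h1] at hx
    exact Or.inr ⟨h1.le, h.bH i k h1 hk x hx⟩

theorem Web.tch (h : Web K t blk Vp Hp Dp) {i j : ℕ} (hj : j < t) (hij : i < j) :
    Tch K (webB Vp Hp Dp t i) (webB Vp Hp Dp t j) := by
  refine (h.tHV i j hij hj).mono (fun x hx => ⟨j, hj, ?_⟩) (fun x hx => ⟨i, by omega, ?_⟩)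
  · rw [webP_gt hij]
    exact hx
  · rw [webP_lt hij]
    exact hx

theorem Web.disj (h : Web K t blk Vp Hp Dp) {i j : ℕ} (hj : j < t) (hij : i < j) :
    Disjoint (webB Vp Hp Dp t i) (webB Vp Hp Dp t j) := by
  have hi : i < t := by omega
  rw [Set.disjoint_left]
  rintro x ⟨k, hk, hx⟩ ⟨l, hl, hx'⟩
  have h1 := h.blk_eq hi hk hx
  have h2 := h.blk_eq hj hl hx'
  have h3 : k = j ∧ l = i := by
    rcases h1 with ⟨h1, h1'⟩ | ⟨h1, h1'⟩ <;> rcases h2 with ⟨h2, h2'⟩ | ⟨h2, h2'⟩ <;>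
      rw [h1'] at h2' <;> simp only [Prod.mk.injEq] at h2' <;> omega
  obtain ⟨rfl, rfl⟩ := h3
  rw [webP_gt hij] at hx
  rw [webP_lt hij] at hx'
  exact Set.disjoint_left.mp (h.dis l k hij hj) hx hx'

end

theorem div_blk {m a n : ℕ} (h1 : a * (m + 1) ≤ n) (h2 : n ≤ a * (m + 1) + m) :
    n / (m + 1) = a := by
  apply Nat.div_eq_of_lt_le h1
  rw [Nat.succ_mul]
  omega

/-- the web in a grid all of whose windows above the diagonal are unclean -/
theorem web_unclean {K : SimpleGraph (ℕ × ℕ)} {r m t : ℕ} (hK : GridIn K r) (hm : 1 ≤ m)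
    (hr : t * (m + 1) ≤ r)
    (hc : ∀ a b, a < b → b < t → ¬ CleanW K m (a * (m + 1)) (b * (m + 1))) :
    ∃ B : ℕ → Set (ℕ × ℕ), (∀ i < t, ∀ x ∈ B i, x.1 < r ∧ x.2 < r) ∧ (∀ i < t, Conn K (B i)) ∧
      (∀ i < t, ∀ j < t, i ≠ j → Disjoint (B i) (B j) ∧ Tch K (B i) (B j)) ∧
      ∀ i < t, ∀ q, i * (m + 1) < q → q ≤ i * (m + 1) + m → (i * (m + 1), q) ∈ B i := by
  have hlt : ∀ a < t, a * (m + 1) + m < r := by
    intro a ha
    have h1 : (a + 1) * (m + 1) ≤ t * (m + 1) := Nat.mul_le_mul_right _ ha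
    rw [Nat.succ_mul] at h1
    omega
  have hex : ∀ a b, ∃ A B, a < b → b < t → Crossing K m (a * (m + 1)) (b * (m + 1)) A B := by
    intro a b
    by_cases h : a < b ∧ b < t
    · obtain ⟨A, B, hAB⟩ := cross_unclean hK (hlt a (by omega)) (hlt b h.2) (hc a b h.1 h.2)
      exact ⟨A, B, fun _ _ => hAB⟩
    · exact ⟨∅, ∅, fun h1 h2 => absurd ⟨h1, h2⟩ h⟩
  choose A B hAB using hex
  set Vp : ℕ → ℕ → Set (ℕ × ℕ) := fun a b =>
    {x | x.1 = a * (m + 1) ∧ b * (m + 1) + 1 ≤ x.2 ∧ x.2 ≤ b * (m + 1) + m} ∪ B a b with hVp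
  set Hp : ℕ → ℕ → Set (ℕ × ℕ) := fun a b =>
    {x | x.2 = b * (m + 1) ∧ a * (m + 1) + 1 ≤ x.1 ∧ x.1 ≤ a * (m + 1) + m} ∪ A a b with hHp
  set Dp : ℕ → Set (ℕ × ℕ) := fun a =>
    {x | x.1 = a * (m + 1) ∧ a * (m + 1) + 1 ≤ x.2 ∧ x.2 ≤ a * (m + 1) + m} ∪
      {x | x.2 = a * (m + 1) + m ∧ a * (m + 1) + 1 ≤ x.1 ∧ x.1 ≤ a * (m + 1) + m} with hDp
  -- position of the pieces
  have sV : ∀ a b, a < b → b < t → ∀ x ∈ Vp a b, (a * (m + 1) ≤ x.1 ∧ x.1 ≤ a * (m + 1) + m) ∧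
      (b * (m + 1) ≤ x.2 ∧ x.2 ≤ b * (m + 1) + m) := by
    rintro a b h1 h2 x (⟨h3, h4, h5⟩ | hx)
    · exact ⟨⟨by omega, by omega⟩, by omega, by omega⟩
    · obtain ⟨⟨h3, h4⟩, h5, h6⟩ := (hAB a b h1 h2).subB hx
      exact ⟨⟨by omega, by omega⟩, by omega, by omega⟩
  have sH : ∀ a b, a < b → b < t → ∀ x ∈ Hp a b, (a * (m + 1) ≤ x.1 ∧ x.1 ≤ a * (m + 1) + m) ∧
      (b * (m + 1) ≤ x.2 ∧ x.2 ≤ b * (m + 1) + m) := by
    rintro a b h1 h2 x (⟨h3, h4, h5⟩ | hx)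
    · exact ⟨⟨by omega, by omega⟩, by omega, by omega⟩
    · obtain ⟨⟨h3, h4⟩, h5, h6⟩ := (hAB a b h1 h2).subA hx
      exact ⟨⟨by omega, by omega⟩, by omega, by omega⟩
  have sD : ∀ a < t, ∀ x ∈ Dp a, (a * (m + 1) ≤ x.1 ∧ x.1 ≤ a * (m + 1) + m) ∧
      (a * (m + 1) ≤ x.2 ∧ x.2 ≤ a * (m + 1) + m) := by
    rintro a h1 x (⟨h3, h4, h5⟩ | ⟨h3, h4, h5⟩)
    · exact ⟨⟨by omega, by omega⟩, by omega, by omega⟩
    · exact ⟨⟨by omega, by omega⟩, by omega, by omega⟩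
  have hweb : Web K t (fun x => (x.1 / (m + 1), x.2 / (m + 1))) Vp Hp Dp := by
    refine ⟨?_, ?_, ?_, ?_, ?_, ?_, ?_, ?_, ?_, ?_, ?_, ?_⟩
    · intro a b h1 h2 x hx
      obtain ⟨⟨h3, h4⟩, h5, h6⟩ := sV a b h1 h2 x hx
      exact Prod.ext (div_blk h3 h4) (div_blk h5 h6)
    · intro a b h1 h2 x hx
      obtain ⟨⟨h3, h4⟩, h5, h6⟩ := sH a b h1 h2 x hx
      exact Prod.ext (div_blk h3 h4) (div_blk h5 h6)
    · intro a h1 x hx
      obtain ⟨⟨h3, h4⟩, h5, h6⟩ := sD a h1 x hx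
      exact Prod.ext (div_blk h3 h4) (div_blk h5 h6)
    · intro a b h1 h2
      obtain ⟨j, hj⟩ := (hAB a b h1 h2).top
      obtain ⟨-, h5, h6⟩ := (hAB a b h1 h2).subB hj
      simp only at h5 h6
      have hla := hlt a (by omega)
      have hlb := hlt b h2
      refine (hK.conn_row (by omega) (by omega) hlb).union (hAB a b h1 h2).connB
        (Or.inr ⟨(a * (m + 1), j), ⟨rfl, by simp; omega, by simp; omega⟩,
          (a * (m + 1) + 1, j), hj, hK.ver _ _ (by omega) (by omega)⟩)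
    · intro a b h1 h2
      obtain ⟨j, hj⟩ := (hAB a b h1 h2).left
      obtain ⟨⟨h5, h6⟩, -⟩ := (hAB a b h1 h2).subA hj
      simp only at h5 h6
      have hla := hlt a (by omega)
      have hlb := hlt b h2
      refine (hK.conn_col (by omega) (by omega) hla).union (hAB a b h1 h2).connA
        (Or.inr ⟨(j, b * (m + 1)), ⟨rfl, by simp; omega, by simp; omega⟩,
          (j, b * (m + 1) + 1), hj, hK.hor _ _ (by omega) (by omega)⟩)
    · intro a h1
      have hla := hlt a h1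
      refine (hK.conn_row (by omega) (by omega) hla).union
        (hK.conn_col (by omega) (by omega) hla)
        (Or.inr ⟨(a * (m + 1), a * (m + 1) + m), ⟨rfl, by simp; omega, by simp⟩,
          (a * (m + 1) + 1, a * (m + 1) + m), ⟨rfl, by simp, by simp; omega⟩,
          hK.ver _ _ (by omega) (by omega)⟩)
    · intro a b h1 h2
      rw [Set.disjoint_left]
      rintro x (⟨h3, h4, h5⟩ | hx) (⟨h6, h7, h8⟩ | hx')
      · omega
      · obtain ⟨⟨h6, h7⟩, h8, h9⟩ := (hAB a b h1 h2).subB hx'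
        omega
      · obtain ⟨⟨h9, h10⟩, h11, h12⟩ := (hAB a b h1 h2).subA hx
        omega
      · exact Set.disjoint_left.mp (hAB a b h1 h2).disj hx hx'
    · intro a b h1 h2
      exact (hAB a b h1 h2).tch.mono (fun x hx => Or.inr hx) (fun x hx => Or.inr hx)
    · intro a b h1 h2
      obtain ⟨j, hj⟩ := (hAB a b (by omega) h2).bot
      obtain ⟨-, h5, h6⟩ := (hAB a b (by omega) h2).subB hj
      simp only at h5 h6
      have hla := hlt (a + 1) (by omega)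
      have hlb := hlt b h2
      have he : (a + 1) * (m + 1) = a * (m + 1) + m + 1 := by ring
      refine ⟨(a * (m + 1) + m, j), Or.inr hj, ((a + 1) * (m + 1), j), Or.inl ⟨rfl, by simp; omega,
        by simp; omega⟩, ?_⟩
      rw [he]
      exact hK.ver _ _ (by omega) (by omega)
    · intro a h2
      obtain ⟨j, hj⟩ := (hAB a (a + 1) (by omega) h2).bot
      obtain ⟨-, h5, h6⟩ := (hAB a (a + 1) (by omega) h2).subB hj
      simp only at h5 h6
      have hla := hlt (a + 1) (by omega)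
      have he : (a + 1) * (m + 1) = a * (m + 1) + m + 1 := by ring
      refine ⟨(a * (m + 1) + m, j), Or.inr hj, ((a + 1) * (m + 1), j), Or.inl ⟨rfl, by simp; omega,
        by simp; omega⟩, ?_⟩
      rw [he]
      exact hK.ver _ _ (by omega) (by omega)
    · intro a h2
      have hla := hlt (a + 1) (by omega)
      have he : (a + 1) * (m + 1) = a * (m + 1) + m + 1 := by ring
      refine ⟨(a * (m + 1) + 1, a * (m + 1) + m), Or.inr ⟨rfl, by simp, by simp; omega⟩,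
        (a * (m + 1) + 1, (a + 1) * (m + 1)), Or.inl ⟨rfl, by simp, by simp; omega⟩, ?_⟩
      rw [he]
      exact hK.hor _ _ (by omega) (by omega)
    · intro a b h1 h2
      obtain ⟨j, hj⟩ := (hAB a b h1 (by omega)).right
      obtain ⟨⟨h5, h6⟩, -⟩ := (hAB a b h1 (by omega)).subA hj
      simp only at h5 h6
      have hla := hlt a (by omega)
      have hlb := hlt (b + 1) h2
      have he : (b + 1) * (m + 1) = b * (m + 1) + m + 1 := by ring
      refine ⟨(j, b * (m + 1) + m), Or.inr hj, (j, (b + 1) * (m + 1)), Or.inl ⟨rfl, by simp; omega,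
        by simp; omega⟩, ?_⟩
      rw [he]
      exact hK.hor _ _ (by omega) (by omega)
  refine ⟨webB Vp Hp Dp t, ?_, fun i hi => hweb.conn hi, ?_, ?_⟩
  · rintro i hi x ⟨k, hk, hx⟩
    have hli := hlt i hi
    have hlk := hlt k hk
    rcases lt_trichotomy k i with h1 | h1 | h1
    · rw [webP_lt h1] at hx
      have := sV k i h1 hi x hx
      omega
    · subst h1
      rw [webP_eq] at hx
      have := sD k hk x hx
      omega
    · rw [webP_gt h1] at hx
      have := sH i k h1 hk x hx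
      omega
  · intro i hi j hj hij
    rcases lt_or_gt_of_ne hij with h1 | h1
    · exact ⟨hweb.disj hj h1, hweb.tch hj h1⟩
    · exact ⟨(hweb.disj hi h1).symm, (hweb.tch hi h1).symm⟩
  · intro i hi q h1 h2
    refine ⟨i, hi, ?_⟩
    rw [webP_eq]
    exact Or.inl ⟨rfl, by simp; omega, by simp; omega⟩

end Pool.Agent.MPd439b2
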