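import Pool.Agent.Lib.MP_d439b2_co.J.Thin
import Pool.Agent.Lib.MP_d439b2_co.J.Web
import Pool.Agent.Lib.MP_d439b2_co.J.Depth
import Pool.Agent.Lib.MP_d439b2_co.GT.SpecG

/-!
# MP_d439b2_co : Theorem GK from the grid theorem
-/

set_option autoImplicit false

namespace Pool.Agent.MPd439b2

variable {V : Type} {G : SimpleGraph V}

/-- **Jump lemma with thinning.**  A large deep grid model yields an induced grid or a deep model of a
complete graph. -/
theorem jump [Finite V] {S : Set V} {t n k m : ℕ} {g : ℕ → ℕ → Set V} (hkt : k ≤ t)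
    (hm : 1 ≤ m) (hmn : 4 * n ≤ m) (hkm : k ≤ m) (h : GrModel G (t * (m + 1)) g)
    (hside : DeepRows G S (t * (m + 1)) k g) :
    IMS (grid n) G Set.univ ∨ ∃ B : Fin t → Set V, CliqueModel G B ∧ Deep G S k B := by
  have hlt : ∀ a < t, a * (m + 1) + m < t * (m + 1) := by
    intro a ha
    have h1 : (a + 1) * (m + 1) ≤ t * (m + 1) := Nat.mul_le_mul_right _ ha
    rw [Nat.succ_mul] at h1
    omega
  by_cases hc : ∃ a b, a < b ∧ b < t ∧
      CleanW (cellG G (t * (m + 1)) g) m (a * (m + 1)) (b * (m + 1))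
  · obtain ⟨a, b, hab, hb, hc⟩ := hc
    exact Or.inl (thin_clean h hmn (hlt a (by omega)) (hlt b hb) hc)
  · right
    push Not at hc
    obtain ⟨B, hBr, hBc, hBd, hBm⟩ := web_unclean h.gridIn hm (le_refl _) hc
    refine ⟨fun i => cellU g (B i.val), ⟨fun i => h.conn_cellU (hBc i.val i.2) (hBr i.val i.2),
      fun i j hij => ?_⟩, ?_⟩
    · have hne : i.val ≠ j.val := fun h => hij (Fin.ext h)
      obtain ⟨h1, h2⟩ := hBd i.val i.2 j.val j.2 hne
      exact ⟨h.disj_cellU (hBr i.val i.2) (hBr j.val j.2) h1, tch_cellU h2⟩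
    · exact deep_cells h hside hkt hkm hBr hBc (fun i hi j hj hij => (hBd i hi j hj hij).1)
        (fun i => i * (m + 1)) (fun i => i * (m + 1)) hBm

/-- restriction of a deep model to fewer sets, trivial cases included -/
theorem deep_small {S : Set V} {t k : ℕ} (hkt : k ≤ t) [Finite V] {b : Fin (max t 2) → Set V}
    (hb : CliqueModel G b) (hd : Deep G S (max k 1) b) (hd' : 2 ≤ t → Deep G S k b) :
    ∃ B : Fin t → Set V, CliqueModel G B ∧ Deep G S k B := by
  by_cases ht : 2 ≤ t
  · have he : max t 2 = t := max_eq_left ht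
    have key : ∀ n, n = t → ∀ b : Fin n → Set V, CliqueModel G b → Deep G S k b →
        ∃ B : Fin t → Set V, CliqueModel G B ∧ Deep G S k B := by
      rintro n rfl b hb hd
      exact ⟨b, hb, hd⟩
    exact key _ he b hb (hd' ht)
  · obtain ⟨i, C, hCX, hCc, hiC, hCS⟩ := hd ∅ (by simp)
    refine ⟨fun _ => b i, ⟨fun _ => hb.1 i, fun x y hxy => ?_⟩, fun X hX => ?_⟩
    · exact absurd (Fin.ext (by have := x.2; have := y.2; omega)) hxy
    · have h0 : X = ∅ := by
        rw [← Set.ncard_eq_zero (Set.toFinite X)]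
        omega
      subst h0
      exact ⟨⟨0, by omega⟩, C, hCX, hCc, hiC, hCS⟩

/-- **Theorem GK** from the grid theorem. -/
theorem gk_of_GT (hHv : GT.SHv) (hGK : GT.SGK) (t r k : ℕ) (hkt : k ≤ t) :
    ∃ θ₀ : ℕ, ∀ θ : ℕ, θ₀ ≤ θ →
    ∀ (V : Type) [Finite V] (G : SimpleGraph V) (S : Set V), WL G S θ → 5 * θ ≤ S.ncard →
      IMS (grid r) G Set.univ ∨ ∃ B : Fin t → Set V, CliqueModel G B ∧ Deep G S k B := by
  classical
  obtain ⟨R, hReq⟩ : ∃ R, R = max t 2 * (4 * r + max t 2 + 1) := ⟨_, rfl⟩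
  have hR : 2 ≤ R := by
    have : 2 ≤ max t 2 := le_max_right _ _
    rw [hReq]
    nlinarith
  have hkR : 2 * k ≤ R := by
    have h1 : t ≤ max t 2 := le_max_left _ _
    have h2 : 2 ≤ max t 2 := le_max_right _ _
    rw [hReq]
    nlinarith
  obtain ⟨w, hw⟩ := hGK (max t 2) R (le_max_right _ _) hR
  refine ⟨w, fun θ hθ V _ G S hWL hS => ?_⟩
  have : Fintype V := Fintype.ofFinite V
  have hcard : ∀ X : Set V, X.toFinset.card = X.ncard := fun X => by
    rw [Set.ncard_eq_toFinset_card']
  have hcardF : ∀ X : Finset V, (X : Set V).ncard = X.card := fun X => Set.ncard_coe_finset X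
  have hint : ∀ X : Finset V, (S.toFinset ∩ X).card = (S ∩ (X : Set V)).ncard := fun X => by
    rw [← hcardF]
    congr 1
    ext v
    simp
  have hHav : GT.Hav G S.toFinset w := by
    refine hHv V G S.toFinset w (fun P Z R h1 h2 h3 h4 h5 h6 => ?_) (by rw [hcard]; omega)
    have := hWL (P : Set V) Z R (by
      rw [← Finset.coe_union, ← Finset.coe_union, h1, Finset.coe_univ])
      (Finset.disjoint_coe.mpr h2) (Finset.disjoint_coe.mpr h4) (Finset.disjoint_coe.mpr h3)
      (fun p hp q hq => h5 p (by simpa using hp) q (by simpa using hq))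
      (by rw [hcardF]; omega)
    rw [hint, hint, ← hcardF]
    exact this
  have hbig : ∀ D : Finset V, GT.Big S.toFinset D → S.ncard < 2 * (S ∩ (D : Set V)).ncard := by
    intro D hD
    unfold GT.Big at hD
    rw [hcard, hint] at hD
    exact hD
  rcases hw V G S.toFinset hHav with ⟨b, hb1, hb2, hb3, hb4⟩ | ⟨g, hg, hdeep⟩
  · right
    have hcl : CliqueModel G (fun i => (b i : Set V)) :=
      ⟨hb1, fun i j hij => ⟨Finset.disjoint_coe.mpr (hb2 i j hij), hb3 i j hij⟩⟩
    have hdp : Deep G S (max t 2) (fun i => (b i : Set V)) := by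
      intro X hX
      obtain ⟨i, D, h1, h2, h3, h4⟩ := hb4 X.toFinset (by rw [hcard]; exact hX)
      refine ⟨i, D, ?_, h1, Finset.coe_subset.mpr h4, hbig D h2⟩
      rw [Set.disjoint_left]
      intro v hv hv'
      exact Finset.disjoint_left.mp h3 (by simpa using hv') (by simpa using hv)
    refine deep_small hkt hcl (fun X hX => hdp X ?_) (fun h2 X hX => hdp X ?_)
    · have h1 : t ≤ max t 2 := le_max_left _ _
      have h2 : 2 ≤ max t 2 := le_max_right _ _
      have h3 : max k 1 ≤ max t 2 := by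
        apply max_le <;> omega
      omega
    · have h1 : t ≤ max t 2 := le_max_left _ _
      omega
  · obtain ⟨g', hg'v⟩ : ∃ g' : ℕ → ℕ → Set V,
        ∀ i j (hi : i < R) (hj : j < R), g' i j = (g ⟨i, hi⟩ ⟨j, hj⟩ : Set V) :=
      ⟨fun i j => if h : i < R ∧ j < R then (g ⟨i, h.1⟩ ⟨j, h.2⟩ : Set V) else ∅,
        fun i j hi hj => dif_pos ⟨hi, hj⟩⟩
    have hmod : GrModel G R g' := by
      refine ⟨fun i hi j hj => ?_, fun i hi j hj i' hi' j' hj' hne => ?_, fun i hi j hj => ?_,
        fun i hi j hj => ?_⟩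
      · rw [hg'v i j hi hj]
        exact hg.conn _ _
      · rw [hg'v i j hi hj, hg'v i' j' hi' hj']
        refine Finset.disjoint_coe.mpr (hg.dis _ _ _ _ fun h => ?_)
        simp only [Prod.mk.injEq, Fin.mk.injEq] at h
        rcases hne with h' | h'
        · exact h' h.1
        · exact h' h.2
      · rw [hg'v i j hi (by omega), hg'v i (j + 1) hi hj]
        exact hg.hor _ _ _ rfl
      · rw [hg'v i j (by omega) hj, hg'v (i + 1) j hi hj]
        exact hg.ver _ _ _ rfl
    have hrows : DeepRows G S R (max k 1) g' := by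
      intro X hX
      obtain ⟨i, D, h1, h2, h3, h4⟩ := hdeep X.toFinset (by
        rw [hcard]
        have : 2 ≤ R := hR
        rcases le_total k 1 with h | h
        · rw [max_eq_right h] at hX
          omega
        · rw [max_eq_left h] at hX
          omega)
      refine ⟨i.val, i.2, D, ?_, h1, ?_, hbig D h2⟩
      · rw [Set.disjoint_left]
        intro v hv hv'
        exact Finset.disjoint_left.mp h3 (by simpa using hv') (by simpa using hv)
      · rintro v ⟨j, hj, hv⟩
        rw [hg'v i.val j i.2 hj] at hv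
        exact Finset.coe_subset.mpr (h4 ⟨j, hj⟩) hv
    have hkt' : max k 1 ≤ max t 2 := by
      have h1 : t ≤ max t 2 := le_max_left _ _
      have h2 : 2 ≤ max t 2 := le_max_right _ _
      apply max_le <;> omega
    subst hReq
    have hj := jump (t := max t 2) (n := r) (m := 4 * r + max t 2) hkt'
      (by have : 2 ≤ max t 2 := le_max_right _ _; omega) (by omega) (by omega) hmod hrows
    rcases hj with h | ⟨B, hB, hd⟩
    · exact Or.inl h
    · exact Or.inr (deep_small hkt hB hd (fun _ X hX => hd X (lt_of_lt_of_le hX (le_max_left _ _))))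

end Pool.Agent.MPd439b2
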