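import Pool.Agent.Lib.MP_d439b2_co.J.Defs

/-!
# MP_d439b2_co, jump lemma: cells of a grid model
-/

set_option autoImplicit false

namespace Pool.Agent.MPd439b2

variable {V : Type} {G : SimpleGraph V}

theorem GrModel.gridIn {r : ℕ} {g : ℕ → ℕ → Set V} (h : GrModel G r g) :
    GridIn (cellG G r g) r where
  hor i j hi hj := ⟨by simp, ⟨hi, by simp; omega⟩, ⟨hi, hj⟩, h.hor i hi j hj⟩
  ver i j hi hj := ⟨by simp, ⟨by simp; omega, hj⟩, ⟨hi, hj⟩, h.ver i hi j hj⟩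

/-- the union of a connected set of cells is connected -/
theorem GrModel.conn_cellU {r : ℕ} {g : ℕ → ℕ → Set V} (h : GrModel G r g) {A : Set (ℕ × ℕ)}
    (hA : Conn (cellG G r g) A) (hr : ∀ x ∈ A, x.1 < r ∧ x.2 < r) : Conn G (cellU g A) := by
  have hc : ∀ x ∈ A, Conn G (g x.1 x.2) := fun x hx => h.conn _ (hr x hx).1 _ (hr x hx).2
  refine ⟨?_, fun B hB hne hne' => ?_⟩
  · obtain ⟨x, hx⟩ := hA.1
    obtain ⟨v, hv⟩ := (hc x hx).1
    exact ⟨v, x, hx, hv⟩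
  · by_cases h1 : ∃ x ∈ A, (g x.1 x.2 ∩ B).Nonempty ∧ g x.1 x.2 ∩ B ≠ g x.1 x.2
    · obtain ⟨x, hx, h2, h3⟩ := h1
      obtain ⟨b, hb, a, ha, hab⟩ := (hc x hx).2 (g x.1 x.2 ∩ B) Set.inter_subset_left h2 h3
      exact ⟨b, hb.2, a, ⟨⟨x, hx, ha.1⟩, fun h => ha.2 ⟨ha.1, h⟩⟩, hab⟩
    · push Not at h1
      have h2 : ∀ x ∈ A, ∀ v ∈ g x.1 x.2, v ∈ B → g x.1 x.2 ⊆ B := by
        intro x hx v hv hvB
        have := h1 x hx ⟨v, hv, hvB⟩
        rw [← this]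
        exact Set.inter_subset_right
      let A₁ : Set (ℕ × ℕ) := {x | x ∈ A ∧ g x.1 x.2 ⊆ B}
      have hA₁ : A₁.Nonempty := by
        obtain ⟨b, hb⟩ := hne
        obtain ⟨x, hx, hbx⟩ := hB hb
        exact ⟨x, hx, h2 x hx b hbx hb⟩
      have hA₁' : A₁ ≠ A := by
        intro he
        apply hne'
        refine Set.Subset.antisymm hB ?_
        rintro v ⟨x, hx, hv⟩
        rw [← he] at hx
        exact hx.2 hv
      obtain ⟨x, hx, y, hy, hxy⟩ := hA.2 A₁ (fun x hx => hx.1) hA₁ hA₁'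
      obtain ⟨a, ha, b, hb, hab⟩ := hxy.2.2.2
      refine ⟨a, hx.2 ha, b, ⟨⟨y, hy.1, hb⟩, fun hbB => ?_⟩, hab⟩
      exact hy.2 ⟨hy.1, h2 y hy.1 b hb hbB⟩

theorem GrModel.disj_cellU {r : ℕ} {g : ℕ → ℕ → Set V} (h : GrModel G r g) {A B : Set (ℕ × ℕ)}
    (hA : ∀ x ∈ A, x.1 < r ∧ x.2 < r) (hB : ∀ x ∈ B, x.1 < r ∧ x.2 < r) (hd : Disjoint A B) :
    Disjoint (cellU g A) (cellU g B) := by
  rw [Set.disjoint_left]
  rintro v ⟨x, hx, hv⟩ ⟨y, hy, hv'⟩
  have hxy : x ≠ y := by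
    rintro rfl
    exact Set.disjoint_left.mp hd hx hy
  have h1 : x.1 ≠ y.1 ∨ x.2 ≠ y.2 := by
    by_contra hc
    push Not at hc
    exact hxy (Prod.ext hc.1 hc.2)
  exact Set.disjoint_left.mp
    (h.disj x.1 (hA x hx).1 x.2 (hA x hx).2 y.1 (hB y hy).1 y.2 (hB y hy).2 h1) hv hv'

theorem tch_cellU {r : ℕ} {g : ℕ → ℕ → Set V} {A B : Set (ℕ × ℕ)}
    (h : Tch (cellG G r g) A B) : Tch G (cellU g A) (cellU g B) := by
  obtain ⟨x, hx, y, hy, hxy⟩ := h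
  obtain ⟨a, ha, b, hb, hab⟩ := hxy.2.2.2
  exact ⟨a, ⟨x, hx, ha⟩, b, ⟨y, hy, hb⟩, hab⟩

theorem tch_of_cellU {r : ℕ} {g : ℕ → ℕ → Set V} {A B : Set (ℕ × ℕ)}
    (hA : ∀ x ∈ A, x.1 < r ∧ x.2 < r) (hB : ∀ x ∈ B, x.1 < r ∧ x.2 < r) (hd : Disjoint A B)
    (h : Tch G (cellU g A) (cellU g B)) : Tch (cellG G r g) A B := by
  obtain ⟨a, ⟨x, hx, ha⟩, b, ⟨y, hy, hb⟩, hab⟩ := h
  refine ⟨x, hx, y, hy, ?_, hA x hx, hB y hy, a, ha, b, hb, hab⟩
  rintro rfl
  exact Set.disjoint_left.mp hd hx hy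

/-- a chain of connected sets -/
theorem conn_chain {α : Type} {K : SimpleGraph α} (P : ℕ → Set α) (n : ℕ) (hn : 0 < n)
    (hc : ∀ k < n, Conn K (P k)) (ht : ∀ k, k + 1 < n → Tch K (P k) (P (k + 1))) :
    Conn K {x | ∃ k < n, x ∈ P k} := by
  induction n with
  | zero => omega
  | succ n ih =>
    by_cases h0 : n = 0
    · subst h0
      have : {x | ∃ k < 0 + 1, x ∈ P k} = P 0 := by
        ext x
        constructor
        · rintro ⟨k, hk, hx⟩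
          obtain rfl : k = 0 := by omega
          exact hx
        · intro hx
          exact ⟨0, by omega, hx⟩
      rw [this]
      exact hc 0 (by omega)
    · have h1 := ih (by omega) (fun k hk => hc k (by omega)) (fun k hk => ht k (by omega))
      have : {x | ∃ k < n + 1, x ∈ P k} = {x | ∃ k < n, x ∈ P k} ∪ P n := by
        ext x
        constructor
        · rintro ⟨k, hk, hx⟩
          by_cases hkn : k = n
          · subst hkn
            exact Or.inr hx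
          · exact Or.inl ⟨k, by omega, hx⟩
        · rintro (⟨k, hk, hx⟩ | hx)
          · exact ⟨k, by omega, hx⟩
          · exact ⟨n, by omega, hx⟩
      rw [this]
      refine h1.union (hc n (by omega)) (Or.inr ?_)
      have h2 := ht (n - 1) (by omega)
      rw [show n - 1 + 1 = n by omega] at h2
      exact h2.mono (fun x hx => ⟨n - 1, by omega, hx⟩) (fun _ hx => hx)

/-- a horizontal segment is connected -/
theorem GridIn.conn_row {K : SimpleGraph (ℕ × ℕ)} {r : ℕ} (h : GridIn K r) {i a b : ℕ}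
    (hi : i < r) (hab : a ≤ b) (hb : b < r) : Conn K {x | x.1 = i ∧ a ≤ x.2 ∧ x.2 ≤ b} := by
  have h1 := conn_chain (K := K) (fun k => {(i, a + k)}) (b - a + 1) (by omega)
    (fun k _ => Conn.singleton K _) (fun k hk => by
      refine ⟨(i, a + k), rfl, (i, a + (k + 1)), rfl, ?_⟩
      exact h.hor i (a + k) hi (by omega))
  have h2 : {x : ℕ × ℕ | ∃ k < b - a + 1, x ∈ ({(i, a + k)} : Set (ℕ × ℕ))}
      = {x | x.1 = i ∧ a ≤ x.2 ∧ x.2 ≤ b} := by
    ext ⟨p, q⟩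
    simp only [Set.mem_setOf_eq, Set.mem_singleton_iff, Prod.mk.injEq]
    constructor
    · rintro ⟨k, hk, rfl, rfl⟩
      omega
    · rintro ⟨rfl, h1, h2⟩
      exact ⟨q - a, by omega, rfl, by omega⟩
  rw [h2] at h1
  exact h1

/-- a vertical segment is connected -/
theorem GridIn.conn_col {K : SimpleGraph (ℕ × ℕ)} {r : ℕ} (h : GridIn K r) {j a b : ℕ}
    (hj : j < r) (hab : a ≤ b) (hb : b < r) : Conn K {x | x.2 = j ∧ a ≤ x.1 ∧ x.1 ≤ b} := by
  have h1 := conn_chain (K := K) (fun k => {(a + k, j)}) (b - a + 1) (by omega)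
    (fun k _ => Conn.singleton K _) (fun k hk => by
      refine ⟨(a + k, j), rfl, (a + (k + 1), j), rfl, ?_⟩
      exact h.ver (a + k) j (by omega) hj)
  have h2 : {x : ℕ × ℕ | ∃ k < b - a + 1, x ∈ ({(a + k, j)} : Set (ℕ × ℕ))}
      = {x | x.2 = j ∧ a ≤ x.1 ∧ x.1 ≤ b} := by
    ext ⟨p, q⟩
    simp only [Set.mem_setOf_eq, Set.mem_singleton_iff, Prod.mk.injEq]
    constructor
    · rintro ⟨k, hk, rfl, rfl⟩
      omega
    · rintro ⟨rfl, h1, h2⟩
      exact ⟨p - a, by omega, by omega, rfl⟩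
  rw [h2] at h1
  exact h1

end Pool.Agent.MPd439b2
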