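import Pool.Agent.Lib.MP_d439b2_co.J.Cells

/-!
# MP_d439b2_co, jump lemma: two strands crossing in an unclean window
-/

set_option autoImplicit false

namespace Pool.Agent.MPd439b2

/-- a horizontal and a vertical strand in a window -/
structure Crossing (K : SimpleGraph (ℕ × ℕ)) (m p q : ℕ) (A B : Set (ℕ × ℕ)) : Prop where
  subA : A ⊆ Win m p q
  subB : B ⊆ Win m p q
  disj : Disjoint A B
  connA : Conn K A
  connB : Conn K B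
  tch : Tch K A B
  left : ∃ i, (i, q + 1) ∈ A
  right : ∃ i, (i, q + m) ∈ A
  top : ∃ j, (p + 1, j) ∈ B
  bot : ∃ j, (p + m, j) ∈ B

theorem cross_col {K : SimpleGraph (ℕ × ℕ)} {r m p q : ℕ} (h : GridIn K r) (hp : p + m < r)
    (hq : q + m < r) {x y : ℕ × ℕ} (hx : x ∈ Win m p q) (hy : y ∈ Win m p q) (hxy : K.Adj x y)
    (hc : x.2 + 2 ≤ y.2) : ∃ A B, Crossing K m p q A B := by
  obtain ⟨⟨hx1, hx2⟩, hx3, hx4⟩ := hx
  obtain ⟨⟨hy1, hy2⟩, hy3, hy4⟩ := hy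
  refine ⟨{z | z.1 = x.1 ∧ q + 1 ≤ z.2 ∧ z.2 ≤ x.2} ∪ {z | z.1 = y.1 ∧ y.2 ≤ z.2 ∧ z.2 ≤ q + m},
    {z | z.2 = x.2 + 1 ∧ p + 1 ≤ z.1 ∧ z.1 ≤ p + m}, ?_, ?_, ?_, ?_, ?_, ?_, ?_, ?_, ?_, ?_⟩
  · rintro z (⟨h1, h2, h3⟩ | ⟨h1, h2, h3⟩)
    · exact ⟨⟨by omega, by omega⟩, by omega, by omega⟩
    · exact ⟨⟨by omega, by omega⟩, by omega, by omega⟩
  · rintro z ⟨h1, h2, h3⟩
    exact ⟨⟨by omega, by omega⟩, by omega, by omega⟩
  · rw [Set.disjoint_left]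
    rintro z (⟨h1, h2, h3⟩ | ⟨h1, h2, h3⟩) ⟨h4, h5, h6⟩
    · omega
    · omega
  · refine (h.conn_row (by omega) (by omega) (by omega)).union
      (h.conn_row (by omega) (by omega) (by omega)) (Or.inr ⟨x, ?_, y, ?_, hxy⟩)
    · exact ⟨rfl, by omega, le_refl _⟩
    · exact ⟨rfl, le_refl _, by omega⟩
  · exact h.conn_col (by omega) (by omega) (by omega)
  · refine ⟨(x.1, x.2), Or.inl ⟨rfl, by simp; omega, by simp⟩, (x.1, x.2 + 1),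
      ⟨rfl, by simp; omega, by simp; omega⟩, ?_⟩
    exact h.hor x.1 x.2 (by omega) (by omega)
  · exact ⟨x.1, Or.inl ⟨rfl, by simp, by simp; omega⟩⟩
  · exact ⟨y.1, Or.inr ⟨rfl, by simp; omega, by simp⟩⟩
  · exact ⟨x.2 + 1, rfl, by simp, by simp; omega⟩
  · exact ⟨x.2 + 1, rfl, by simp; omega, by simp⟩

theorem cross_row {K : SimpleGraph (ℕ × ℕ)} {r m p q : ℕ} (h : GridIn K r) (hp : p + m < r)
    (hq : q + m < r) {x y : ℕ × ℕ} (hx : x ∈ Win m p q) (hy : y ∈ Win m p q) (hxy : K.Adj x y)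
    (hc : x.1 + 2 ≤ y.1) : ∃ A B, Crossing K m p q A B := by
  obtain ⟨⟨hx1, hx2⟩, hx3, hx4⟩ := hx
  obtain ⟨⟨hy1, hy2⟩, hy3, hy4⟩ := hy
  refine ⟨{z | z.1 = x.1 + 1 ∧ q + 1 ≤ z.2 ∧ z.2 ≤ q + m},
    {z | z.2 = x.2 ∧ p + 1 ≤ z.1 ∧ z.1 ≤ x.1} ∪ {z | z.2 = y.2 ∧ y.1 ≤ z.1 ∧ z.1 ≤ p + m},
    ?_, ?_, ?_, ?_, ?_, ?_, ?_, ?_, ?_, ?_⟩
  · rintro z ⟨h1, h2, h3⟩
    exact ⟨⟨by omega, by omega⟩, by omega, by omega⟩
  · rintro z (⟨h1, h2, h3⟩ | ⟨h1, h2, h3⟩)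
    · exact ⟨⟨by omega, by omega⟩, by omega, by omega⟩
    · exact ⟨⟨by omega, by omega⟩, by omega, by omega⟩
  · rw [Set.disjoint_left]
    rintro z ⟨h4, h5, h6⟩ (⟨h1, h2, h3⟩ | ⟨h1, h2, h3⟩)
    · omega
    · omega
  · exact h.conn_row (by omega) (by omega) (by omega)
  · refine (h.conn_col (by omega) (by omega) (by omega)).union
      (h.conn_col (by omega) (by omega) (by omega)) (Or.inr ⟨x, ?_, y, ?_, hxy⟩)
    · exact ⟨rfl, by omega, le_refl _⟩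
    · exact ⟨rfl, le_refl _, by omega⟩
  · refine ⟨(x.1 + 1, x.2), ⟨rfl, by simp; omega, by simp; omega⟩, (x.1, x.2),
      Or.inl ⟨rfl, by simp; omega, by simp⟩, ?_⟩
    exact (h.ver x.1 x.2 (by omega) (by omega)).symm
  · exact ⟨x.1 + 1, rfl, by simp, by simp; omega⟩
  · exact ⟨x.1 + 1, rfl, by simp; omega, by simp⟩
  · exact ⟨x.2, Or.inl ⟨rfl, by simp, by simp; omega⟩⟩
  · exact ⟨y.2, Or.inr ⟨rfl, by simp; omega, by simp⟩⟩

/-- an unclean window contains two crossing strands -/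
theorem cross_unclean {K : SimpleGraph (ℕ × ℕ)} {r m p q : ℕ} (h : GridIn K r) (hp : p + m < r)
    (hq : q + m < r) (hc : ¬ CleanW K m p q) : ∃ A B, Crossing K m p q A B := by
  unfold CleanW at hc
  push Not at hc
  obtain ⟨x, hx, y, hy, hxy, h1⟩ := hc
  by_cases h2 : x.1 + 2 ≤ y.1
  · exact cross_row h hp hq hx hy hxy h2
  · by_cases h3 : y.1 + 2 ≤ x.1
    · exact cross_row h hp hq hy hx hxy.symm h3
    · have h4 := h1 ⟨by omega, by omega⟩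
      by_cases h5 : x.2 + 2 ≤ y.2
      · exact cross_col h hp hq hx hy hxy h5
      · exact cross_col h hp hq hy hx hxy.symm (by omega)

end Pool.Agent.MPd439b2
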