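import Pool.Agent.Lib.MP_d439b2_co.Defs5

/-!
# MP_d439b2_co, jump lemma and thinning: definitions
-/

set_option autoImplicit false

namespace Pool.Agent.MPd439b2

variable {V : Type}

/-- a (not necessarily induced) minor model of the `r × r` grid -/
structure GrModel (G : SimpleGraph V) (r : ℕ) (g : ℕ → ℕ → Set V) : Prop where
  conn : ∀ i < r, ∀ j < r, Conn G (g i j)
  disj : ∀ i < r, ∀ j < r, ∀ i' < r, ∀ j' < r, (i ≠ i' ∨ j ≠ j') → Disjoint (g i j) (g i' j')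
  hor : ∀ i < r, ∀ j, j + 1 < r → Tch G (g i j) (g i (j + 1))
  ver : ∀ i, i + 1 < r → ∀ j < r, Tch G (g i j) (g (i + 1) j)

/-- row `i` of a grid model -/
def rowS (g : ℕ → ℕ → Set V) (r i : ℕ) : Set V := {v | ∃ j < r, v ∈ g i j}

/-- the grid model is deep of order `k` with respect to `S`: a set of fewer than `k` vertices does not
separate all rows from more than half of `S` -/
def DeepRows (G : SimpleGraph V) (S : Set V) (r k : ℕ) (g : ℕ → ℕ → Set V) : Prop :=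
  ∀ X : Set V, X.ncard < k →
    ∃ i < r, ∃ D : Set V, Disjoint D X ∧ Conn G D ∧ rowS g r i ⊆ D ∧ S.ncard < 2 * (S ∩ D).ncard

/-- the graph on the cells of a grid model -/
def cellG (G : SimpleGraph V) (r : ℕ) (g : ℕ → ℕ → Set V) : SimpleGraph (ℕ × ℕ) where
  Adj x y := x ≠ y ∧ (x.1 < r ∧ x.2 < r) ∧ (y.1 < r ∧ y.2 < r) ∧ Tch G (g x.1 x.2) (g y.1 y.2)
  symm := ⟨fun _ _ h => ⟨h.1.symm, h.2.2.1, h.2.1, by
    obtain ⟨a, ha, b, hb, hab⟩ := h.2.2.2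
    exact ⟨b, hb, a, ha, hab.symm⟩⟩⟩
  loopless := ⟨fun _ h => h.1 rfl⟩

/-- the union of the cells of the set `A` -/
def cellU (g : ℕ → ℕ → Set V) (A : Set (ℕ × ℕ)) : Set V := {v | ∃ x ∈ A, v ∈ g x.1 x.2}

/-- the window with corner `(p, q)` and size `m` -/
def Win (m p q : ℕ) : Set (ℕ × ℕ) := {x | (p < x.1 ∧ x.1 ≤ p + m) ∧ (q < x.2 ∧ x.2 ≤ q + m)}

/-- the window is clean: only king moves are edges -/
def CleanW (K : SimpleGraph (ℕ × ℕ)) (m p q : ℕ) : Prop :=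
  ∀ x ∈ Win m p q, ∀ y ∈ Win m p q, K.Adj x y →
    (x.1 ≤ y.1 + 1 ∧ y.1 ≤ x.1 + 1) ∧ (x.2 ≤ y.2 + 1 ∧ y.2 ≤ x.2 + 1)

/-- `K` contains the `r × r` grid -/
structure GridIn (K : SimpleGraph (ℕ × ℕ)) (r : ℕ) : Prop where
  hor : ∀ i j : ℕ, i < r → j + 1 < r → K.Adj (i, j) (i, j + 1)
  ver : ∀ i j : ℕ, i + 1 < r → j < r → K.Adj (i, j) (i + 1, j)

end Pool.Agent.MPd439b2
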