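import Pool.Agent.Lib.MP_d439b2_co.J.Main
import Pool.Agent.Lib.MP_d439b2_co.GT.Hv
import Pool.Agent.Lib.MP_d439b2_co.GT.GK
import Pool.Agent.Lib.MP_d439b2_co.GT.Msh
import Pool.Agent.Lib.MP_d439b2_co.GT.Min
import Pool.Agent.Lib.MP_d439b2_co.GT.BigC
import Pool.Agent.Lib.MP_d439b2_co.GT.ExtA
import Pool.Agent.Lib.MP_d439b2_co.GT.ExtB
import Pool.Agent.Lib.MP_d439b2_co.GT.ExtC
import Pool.Agent.Lib.MP_d439b2_co.GT.Men
import Pool.Agent.Lib.MP_d439b2_co.GT.Link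
import Pool.Agent.Lib.MP_d439b2_co.GT.Deep
import Pool.Agent.Lib.MP_d439b2_co.GT.Sel
import Pool.Agent.Lib.MP_d439b2_co.GT.SelS
import Pool.Agent.Lib.MP_d439b2_co.GT.MinH
import Pool.Agent.Lib.MP_d439b2_co.GT.Core
import Pool.Agent.Lib.MP_d439b2_co.GT.Cutj
import Pool.Agent.Lib.MP_d439b2_co.GT.Grd
import Pool.Agent.Lib.MP_d439b2_co.GT.Sub
import Pool.Agent.Lib.MP_d439b2_co.GT.LadP
import Pool.Agent.Lib.MP_d439b2_co.GT.LadS
import Pool.Agent.Lib.MP_d439b2_co.GT.LadG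
import Pool.Agent.Lib.MP_d439b2_co.GT.FinK
import Pool.Agent.Lib.MP_d439b2_co.GT.FinG
import Pool.Agent.Lib.MP_d439b2_co.GT.PS
import Pool.Agent.Lib.MP_d439b2_co.GT.Gam

/-!
# MP_d439b2_co : the grid theorem and Theorem GK
-/

set_option autoImplicit false

namespace Pool.Agent.MPd439b2

open GT in
/-- **The grid theorem** for havens, with deep models. -/
theorem gridTheorem : SGK :=
  pGK (pMsh (pMin pBigC (pExtA pBigC) (pExtB pMen pBigC) pExtC) (pLink pMen pBigC) (pDeep pBigC))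
    (pSel (pSelS pMinH (pCore (pCutj pMen)))) (pGrd pPS pGam pSub pLadP pLadS pLadG) pFinK pFinG

/-- **Theorem GK.** -/
theorem pGK : S_GK := fun t r k h => gk_of_GT GT.pHv gridTheorem t r k h

end Pool.Agent.MPd439b2
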