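import Pool.Agent.Lib.MP_d439b2_co.Defs5

/-!
# MP_d439b2_co : `K_2 ∨ P_4` is an induced minor of the `5 × 5` grid
-/

set_option autoImplicit false

namespace Pool.Agent.MPd439b2

/-- the vertices of the branch sets -/
def kpL : Fin 2 ⊕ Fin 4 → List (Fin 5 × Fin 5)
  | Sum.inl 0 => [(4, 0), (3, 0), (2, 0), (1, 0), (0, 0), (0, 1), (0, 2)]
  | Sum.inl 1 => [(4, 2), (3, 2), (2, 2), (1, 2)]
  | Sum.inr i => [(i.succ, 1)]

instance decGrid5 : DecidableRel (grid 5).Adj := fun u v =>
  inferInstanceAs (Decidable ((u.1 = v.1 ∧ (u.2.val = v.2.val + 1 ∨ v.2.val = u.2.val + 1)) ∨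
    (u.2 = v.2 ∧ (u.1.val = v.1.val + 1 ∨ v.1.val = u.1.val + 1))))

instance decKP2 : DecidableRel (KP 2).Adj := fun u v =>
  match u, v with
  | Sum.inl i, Sum.inl j => inferInstanceAs (Decidable (i ≠ j))
  | Sum.inl _, Sum.inr _ => inferInstanceAs (Decidable True)
  | Sum.inr _, Sum.inl _ => inferInstanceAs (Decidable True)
  | Sum.inr i, Sum.inr j => inferInstanceAs (Decidable (i.val = j.val + 1 ∨ j.val = i.val + 1))

theorem conn_list {α : Type} {G : SimpleGraph α} : ∀ (l : List α), l ≠ [] →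
    l.IsChain G.Adj → Conn G {x | x ∈ l}
  | [], h, _ => absurd rfl h
  | [a], _, _ => by
    have : {x | x ∈ [a]} = {a} := by
      ext x
      simp
    rw [this]
    exact Conn.singleton G a
  | a :: b :: l, _, h => by
    have h1 := conn_list (b :: l) (by simp) (List.isChain_cons_cons.mp h).2
    have : {x | x ∈ a :: b :: l} = insert a {x | x ∈ b :: l} := by
      ext x
      simp
    rw [this]
    exact h1.insert ⟨b, by simp, (List.isChain_cons_cons.mp h).1.symm⟩

theorem kp2_grid : IMS (KP 2) (grid 5) Set.univ := by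
  refine ⟨fun w => {x | x ∈ kpL w}, fun w => Set.subset_univ _, fun w => ?_, fun w w' hne => ?_,
    fun w w' hne => ?_⟩
  · refine conn_list _ ?_ ?_
    · revert w
      decide
    · revert w
      decide
  · rw [Set.disjoint_left]
    have : ∀ w w' : Fin 2 ⊕ Fin 4, w ≠ w' → ∀ x ∈ kpL w, x ∉ kpL w' := by decide
    exact fun x hx => this w w' hne x hx
  · have : ∀ w w' : Fin 2 ⊕ Fin 4, w ≠ w' →
        ((KP 2).Adj w w' ↔ ∃ x ∈ kpL w, ∃ y ∈ kpL w', (grid 5).Adj x y) := by decide
    exact this w w' hne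

end Pool.Agent.MPd439b2
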