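import Pool.Agent.Lib.MP_d439b2_co.J.Cells

/-!
# MP_d439b2_co, thinning: a clean window contains an induced grid
-/

set_option autoImplicit false

namespace Pool.Agent.MPd439b2

variable {V : Type} {G : SimpleGraph V}

/-- the branch set `(i, j)` of the thinned grid in the window with corner `(p, q)` -/
def thinS (p q i j : ℕ) : Set (ℕ × ℕ) :=
  {x | x.1 = p + 4 * i + 2 ∧ q + 4 * j + 1 ≤ x.2 ∧ x.2 ≤ q + 4 * j + 4} ∪
    {x | x.2 = q + 4 * j + 2 ∧ p + 4 * i + 1 ≤ x.1 ∧ x.1 ≤ p + 4 * i + 4}

theorem mem_thinS {p q i j : ℕ} {x : ℕ × ℕ} : x ∈ thinS p q i j ↔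
    (x.1 = p + 4 * i + 2 ∧ q + 4 * j + 1 ≤ x.2 ∧ x.2 ≤ q + 4 * j + 4) ∨
    (x.2 = q + 4 * j + 2 ∧ p + 4 * i + 1 ≤ x.1 ∧ x.1 ≤ p + 4 * i + 4) := Iff.rfl

theorem thinS_sub {p q i j m n : ℕ} (hm : 4 * n ≤ m) (hi : i < n) (hj : j < n) :
    thinS p q i j ⊆ Win m p q := by
  rintro ⟨a, b⟩ hx
  rw [mem_thinS] at hx
  simp only at hx
  show (p < a ∧ a ≤ p + m) ∧ (q < b ∧ b ≤ q + m)
  omega

theorem conn_thinS {K : SimpleGraph (ℕ × ℕ)} {r p q i j : ℕ} (h : GridIn K r)
    (hp : p + 4 * i + 4 < r) (hq : q + 4 * j + 4 < r) : Conn K (thinS p q i j) := by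
  refine (h.conn_row (by omega) (by omega) hq).union (h.conn_col (by omega) (by omega) hp)
    (Or.inl ⟨(p + 4 * i + 2, q + 4 * j + 2), ?_, ?_⟩)
  · exact ⟨rfl, by simp, by simp⟩
  · exact ⟨rfl, by simp, by simp⟩

theorem thin_clean {r : ℕ} {g : ℕ → ℕ → Set V} (h : GrModel G r g) {m p q n : ℕ}
    (hm : 4 * n ≤ m) (hp : p + m < r) (hq : q + m < r) (hc : CleanW (cellG G r g) m p q) :
    IMS (grid n) G Set.univ := by
  have hK := h.gridIn
  have hsub : ∀ w : Fin n × Fin n, thinS p q w.1 w.2 ⊆ Win m p q := fun w =>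
    thinS_sub hm w.1.2 w.2.2
  have hr : ∀ w : Fin n × Fin n, ∀ x ∈ thinS p q w.1 w.2, x.1 < r ∧ x.2 < r := by
    intro w x hx
    have := hsub w hx
    have h1 : (p < x.1 ∧ x.1 ≤ p + m) ∧ (q < x.2 ∧ x.2 ≤ q + m) := this
    omega
  have hdis : ∀ w w' : Fin n × Fin n, w ≠ w' →
      Disjoint (thinS p q w.1 w.2) (thinS p q w'.1 w'.2) := by
    intro w w' hne
    rw [Set.disjoint_left]
    intro x hx hx'
    rw [mem_thinS] at hx hx'
    apply hne
    apply Prod.ext
    · apply Fin.ext
      omega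
    · apply Fin.ext
      omega
  refine ⟨fun w => cellU g (thinS p q w.1 w.2), fun w => Set.subset_univ _, fun w => ?_,
    fun w w' hne => h.disj_cellU (hr w) (hr w') (hdis w w' hne), fun w w' hne => ?_⟩
  · have h1 := w.1.2
    have h2 := w.2.2
    exact h.conn_cellU (conn_thinS hK (by omega) (by omega)) (hr w)
  · obtain ⟨i, j⟩ := w
    obtain ⟨i', j'⟩ := w'
    have hi := i.2
    have hj := j.2
    have hi' := i'.2
    have hj' := j'.2
    constructor
    · intro hadj
      apply tch_cellU (r := r)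
      simp only [grid] at hadj
      rcases hadj with ⟨h1, h2⟩ | ⟨h1, h2⟩
      · subst h1
        rcases h2 with h2 | h2
        · refine ⟨(p + 4 * i.val + 2, q + 4 * j.val + 1), ?_,
            (p + 4 * i.val + 2, q + 4 * j'.val + 4), ?_, ?_⟩
          · rw [mem_thinS]; left; simp
          · rw [mem_thinS]; left; simp
          · have := hK.hor (p + 4 * i.val + 2) (q + 4 * j'.val + 4) (by omega) (by omega)
            rw [show q + 4 * j'.val + 4 + 1 = q + 4 * j.val + 1 by omega] at this
            exact this.symm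
        · refine ⟨(p + 4 * i.val + 2, q + 4 * j.val + 4), ?_,
            (p + 4 * i.val + 2, q + 4 * j'.val + 1), ?_, ?_⟩
          · rw [mem_thinS]; left; simp
          · rw [mem_thinS]; left; simp
          · have := hK.hor (p + 4 * i.val + 2) (q + 4 * j.val + 4) (by omega) (by omega)
            rw [show q + 4 * j.val + 4 + 1 = q + 4 * j'.val + 1 by omega] at this
            exact this
      · subst h1
        rcases h2 with h2 | h2
        · refine ⟨(p + 4 * i.val + 1, q + 4 * j.val + 2), ?_,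
            (p + 4 * i'.val + 4, q + 4 * j.val + 2), ?_, ?_⟩
          · rw [mem_thinS]; right; simp
          · rw [mem_thinS]; right; simp
          · have := hK.ver (p + 4 * i'.val + 4) (q + 4 * j.val + 2) (by omega) (by omega)
            rw [show p + 4 * i'.val + 4 + 1 = p + 4 * i.val + 1 by omega] at this
            exact this.symm
        · refine ⟨(p + 4 * i.val + 4, q + 4 * j.val + 2), ?_,
            (p + 4 * i'.val + 1, q + 4 * j.val + 2), ?_, ?_⟩
          · rw [mem_thinS]; right; simp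
          · rw [mem_thinS]; right; simp
          · have := hK.ver (p + 4 * i.val + 4) (q + 4 * j.val + 2) (by omega) (by omega)
            rw [show p + 4 * i.val + 4 + 1 = p + 4 * i'.val + 1 by omega] at this
            exact this
    · intro ht
      obtain ⟨x, hx, y, hy, hxy⟩ := tch_of_cellU (r := r) (hr (i, j)) (hr (i', j'))
        (hdis _ _ hne) ht
      have hk := hc x (hsub _ hx) y (hsub _ hy) hxy
      rw [mem_thinS] at hx hy
      simp only at hx hy
      have hne' : i.val ≠ i'.val ∨ j.val ≠ j'.val := by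
        by_contra hcon
        push Not at hcon
        exact hne (Prod.ext (Fin.ext hcon.1) (Fin.ext hcon.2))
      simp only [grid]
      by_cases h1 : i.val = i'.val
      · left
        refine ⟨Fin.ext h1, ?_⟩
        omega
      · right
        refine ⟨Fin.ext ?_, ?_⟩ <;> omega

end Pool.Agent.MPd439b2
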